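import Pool.Agent.Lib.MP_6383d0_co.Kim.Interfaces

/-!
# DET: tame bits have small second moments (Paper section 2)
-/

namespace Pool.Agent.Lib.MP_6383d0_co.Kim.H81

open Finset Filter Pool.Agent.Lib.MP_6383d0_co.Kim

theorem sum_od_le {N P D : ℕ} (b : Fin N × Fin N → Fin P) (hD : ∀ z, od (tr b) z univ ≤ D)
    (Y : Finset (Fin N)) : ∑ z, od b z Y ≤ Y.card * D := by
  have h1 : ∀ z, od b z Y = ∑ y ∈ Y, if hit b z y then 1 else 0 := by
    intro z
    unfold od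
    rw [Finset.card_filter]
  simp only [h1]
  rw [Finset.sum_comm]
  have h2 : ∀ y ∈ Y, ∑ z, (if hit b z y then 1 else 0) ≤ D := by
    intro y _
    refine le_trans (le_of_eq ?_) (hD y)
    unfold od
    rw [Finset.card_filter]
    rfl
  refine (Finset.sum_le_sum h2).trans (le_of_eq ?_)
  rw [Finset.sum_const, smul_eq_mul]

theorem geo2 (K : ℕ) : ∑ i ∈ Icc 1 K, (2 : ℝ) ^ i ≤ 2 * 2 ^ K := by
  induction K with
  | zero => simp
  | succ K ih =>
    rw [Finset.sum_Icc_succ_top (by omega)]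
    have : (0 : ℝ) < 2 ^ K := by positivity
    rw [pow_succ]
    linarith

theorem geoh (K : ℕ) : ∑ i ∈ Icc 1 K, (1 / 2 : ℝ) ^ i ≤ 1 - (1 / 2) ^ K := by
  induction K with
  | zero => simp
  | succ K ih =>
    rw [Finset.sum_Icc_succ_top (by omega)]
    rw [pow_succ]
    linarith

/-- The dyadic bound for one row. -/
theorem row_bound (s P D d : ℕ) (hP : 0 < P) (hd : d ≤ D) :
    (d : ℝ) ^ 2 ≤ (1 + 22 * s / P) * d + ∑ i ∈ (Icc 1 (Nat.log 2 D)).filter
      (fun i => 11 * s ≤ 2 ^ i * P), (4 : ℝ) ^ (i + 1) * (if 2 ^ i ≤ d then 1 else 0) := by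
  have hP' : (0 : ℝ) < P := by exact_mod_cast hP
  have hsum : 0 ≤ ∑ i ∈ (Icc 1 (Nat.log 2 D)).filter
      (fun i => 11 * s ≤ 2 ^ i * P), (4 : ℝ) ^ (i + 1) * (if 2 ^ i ≤ d then 1 else 0) :=
    Finset.sum_nonneg fun i _ => by positivity
  have h22 : (0 : ℝ) ≤ 22 * s / P := by positivity
  rcases Nat.lt_or_ge d 2 with h2 | h2
  · have hd1 : (d : ℝ) ≤ 1 := by exact_mod_cast (by omega : d ≤ 1)
    have hd0 : (0 : ℝ) ≤ d := Nat.cast_nonneg d
    nlinarith [mul_nonneg h22 hd0]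
  · have hdne : d ≠ 0 := by omega
    have h3 : 2 ^ Nat.log 2 d ≤ d := Nat.pow_log_le_self 2 hdne
    have h4 : d < 2 ^ (Nat.log 2 d + 1) := Nat.lt_pow_succ_log_self (by norm_num) d
    have h5 : 1 ≤ Nat.log 2 d := Nat.log_pos (by norm_num) h2
    have h6 : Nat.log 2 d ≤ Nat.log 2 D := Nat.log_mono_right hd
    have hd0 : (0 : ℝ) ≤ d := Nat.cast_nonneg d
    by_cases h7 : 11 * s ≤ 2 ^ Nat.log 2 d * P
    · have h8 : Nat.log 2 d ∈ (Icc 1 (Nat.log 2 D)).filter (fun i => 11 * s ≤ 2 ^ i * P) := by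
        rw [Finset.mem_filter, Finset.mem_Icc]
        exact ⟨⟨h5, h6⟩, h7⟩
      have h9 := Finset.single_le_sum
        (f := fun i => (4 : ℝ) ^ (i + 1) * (if 2 ^ i ≤ d then 1 else 0))
        (fun i _ => by positivity) h8
      rw [if_pos h3, mul_one] at h9
      have h10 : (d : ℝ) ^ 2 ≤ 4 ^ (Nat.log 2 d + 1) := by
        have h11 : (d : ℝ) ≤ 2 ^ (Nat.log 2 d + 1) := by exact_mod_cast h4.le
        calc (d : ℝ) ^ 2 ≤ (2 ^ (Nat.log 2 d + 1)) ^ 2 := pow_le_pow_left₀ hd0 h11 2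
          _ = 4 ^ (Nat.log 2 d + 1) := by rw [← pow_mul, mul_comm, pow_mul]; norm_num
      have h12 : 0 ≤ (1 + 22 * (s : ℝ) / P) * d := by positivity
      linarith
    · have h13 : (d : ℝ) ≤ 22 * s / P := by
        rw [le_div_iff₀ hP']
        have h14 : d * P ≤ 22 * s := by
          have h15 : d * P ≤ 2 ^ (Nat.log 2 d + 1) * P := Nat.mul_le_mul_right _ h4.le
          rw [pow_succ] at h15
          nlinarith
        exact_mod_cast h14
      nlinarith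

theorem det (hP : PARA_S) : DET_S := by
  refine hP.mono fun j hj b hb hbt Y hs hm => ?_
  obtain ⟨-, hPpos, -, -, hss, h49, -, -, -, h56, -, -, h2j⟩ := hj
  obtain ⟨s, hsdef⟩ : ∃ s, s = Y.card := ⟨_, rfl⟩
  rw [← hsdef] at hs hm ⊢
  have hDrow : ∀ z, od b z Y ≤ DD j := by
    intro z
    refine le_trans (Finset.card_le_card ?_) (hb.1 z)
    exact Finset.filter_subset_filter _ (Finset.subset_univ Y)
  have hDpos : 0 < DD j := by
    unfold DD
    positivity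
  have hsumod : (∑ z, (od b z Y : ℝ)) ≤ s * DD j := by
    have := sum_od_le b hbt.1 Y
    rw [← hsdef] at this
    exact_mod_cast this
  obtain ⟨S, hS⟩ : ∃ S, S = (Icc 1 (Nat.log 2 (DD j))).filter (fun i => 11 * s ≤ 2 ^ i * PP j) :=
    ⟨_, rfl⟩
  have hP' : (0 : ℝ) < PP j := by exact_mod_cast hPpos
  have h1 : ∑ z, (od b z Y : ℝ) ^ 2 ≤ (1 + 22 * s / PP j) * (s * DD j) +
      ∑ i ∈ S, (4 : ℝ) ^ (i + 1) * ((univ.filter (fun z => 2 ^ i ≤ od b z Y)).card : ℝ) := by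
    calc ∑ z, (od b z Y : ℝ) ^ 2
        ≤ ∑ z, ((1 + 22 * s / PP j) * (od b z Y : ℝ) +
          ∑ i ∈ S, (4 : ℝ) ^ (i + 1) * (if 2 ^ i ≤ od b z Y then 1 else 0)) := by
          refine Finset.sum_le_sum fun z _ => ?_
          rw [hS]
          exact row_bound s (PP j) (DD j) (od b z Y) hPpos (hDrow z)
      _ = (1 + 22 * s / PP j) * (∑ z, (od b z Y : ℝ)) +
          ∑ i ∈ S, (4 : ℝ) ^ (i + 1) * ((univ.filter (fun z => 2 ^ i ≤ od b z Y)).card : ℝ) := by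
          rw [Finset.sum_add_distrib, Finset.mul_sum]
          congr 1
          rw [Finset.sum_comm]
          refine Finset.sum_congr rfl fun i _ => ?_
          rw [← Finset.mul_sum]
          congr 1
          rw [Finset.card_filter]
          push_cast
          rfl
      _ ≤ _ := by
          have : (0 : ℝ) ≤ 1 + 22 * s / PP j := by positivity
          linarith [mul_le_mul_of_nonneg_left hsumod this]
  have h2 : ∀ i ∈ S, (4 : ℝ) ^ (i + 1) * ((univ.filter (fun z => 2 ^ i ≤ od b z Y)).card : ℝ) ≤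
      (s : ℝ) ^ 2 / 128 * (1 / 2) ^ i + 192 * s * 2 ^ i := by
    intro i hi
    rw [hS, Finset.mem_filter, Finset.mem_Icc] at hi
    obtain ⟨⟨hi1, hi2⟩, hi3⟩ := hi
    have hiD : 2 ^ i ≤ DD j :=
      (Nat.pow_le_pow_right (by norm_num) hi2).trans (Nat.pow_log_le_self 2 hDpos.ne')
    have hlt := hb.2 Y (by rw [← hsdef]; exact hs) (by rw [← hsdef]; exact hm) i hi1 hiD
      (by rw [← hsdef]; exact hi3)
    rw [← hsdef] at hlt
    obtain ⟨c, hc⟩ : ∃ c, c = (univ.filter (fun z => 2 ^ i ≤ od b z Y)).card := ⟨_, rfl⟩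
    rw [← hc] at hlt ⊢
    have hs0 : (0 : ℝ) ≤ s := Nat.cast_nonneg s
    have h4i : (4 : ℝ) ^ (i + 1) = 4 * (2 ^ i * 2 ^ i) := by
      rw [pow_succ, ← mul_pow]; norm_num; ring
    have h2i : (0 : ℝ) < 2 ^ i := by positivity
    have hhi : (1 / 2 : ℝ) ^ i = 1 / 2 ^ i := by rw [one_div, inv_pow, one_div]
    unfold qq at hlt
    split_ifs at hlt with hmid
    · have hc1 : c ≤ s ^ 2 / (512 * (2 ^ i) ^ 3) := by omega
      have hc2 : c * (512 * (2 ^ i) ^ 3) ≤ s ^ 2 :=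
        (Nat.mul_le_mul_right _ hc1).trans (Nat.div_mul_le_self _ _)
      have hc3 : (c : ℝ) * (512 * (2 ^ i) ^ 3) ≤ s ^ 2 := by exact_mod_cast hc2
      have h5 : (4 : ℝ) ^ (i + 1) * c ≤ (s : ℝ) ^ 2 / 128 * (1 / 2) ^ i := by
        rw [h4i, hhi, ← sub_nonneg]
        have h6 : (s : ℝ) ^ 2 / 128 * (1 / 2 ^ i) - 4 * (2 ^ i * 2 ^ i) * c =
            ((s : ℝ) ^ 2 - c * (512 * (2 ^ i) ^ 3)) / (128 * 2 ^ i) := by
          field_simp
          ring
        rw [h6]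
        exact div_nonneg (by linarith) (by positivity)
      have h7 : (0 : ℝ) ≤ 192 * s * 2 ^ i := by positivity
      linarith
    · have hc1 : c ≤ 48 * s / 2 ^ i := by omega
      have hc2 : c * 2 ^ i ≤ 48 * s :=
        (Nat.mul_le_mul_right _ hc1).trans (Nat.div_mul_le_self _ _)
      have hc3 : (c : ℝ) * 2 ^ i ≤ 48 * s := by exact_mod_cast hc2
      have h5 : (4 : ℝ) ^ (i + 1) * c ≤ 192 * s * 2 ^ i := by
        rw [h4i]
        nlinarith
      have h7 : (0 : ℝ) ≤ (s : ℝ) ^ 2 / 128 * (1 / 2) ^ i := by positivity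
      linarith
  have h3 : ∑ i ∈ S, (4 : ℝ) ^ (i + 1) * ((univ.filter (fun z => 2 ^ i ≤ od b z Y)).card : ℝ) ≤
      (s : ℝ) ^ 2 / 128 + 384 * s * DD j := by
    have hs0 : (0 : ℝ) ≤ s := Nat.cast_nonneg s
    have hsub : S ⊆ Icc 1 (Nat.log 2 (DD j)) := by rw [hS]; exact Finset.filter_subset _ _
    have g1 : ∑ i ∈ S, (1 / 2 : ℝ) ^ i ≤ 1 := by
      refine (Finset.sum_le_sum_of_subset_of_nonneg hsub fun i _ _ => by positivity).trans ?_
      refine (geoh _).trans ?_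
      have : (0 : ℝ) ≤ (1 / 2) ^ Nat.log 2 (DD j) := by positivity
      linarith
    have g2 : ∑ i ∈ S, (2 : ℝ) ^ i ≤ 2 * DD j := by
      refine (Finset.sum_le_sum_of_subset_of_nonneg hsub fun i _ _ => by positivity).trans ?_
      refine (geo2 _).trans ?_
      have : (2 : ℝ) ^ Nat.log 2 (DD j) ≤ DD j := by
        exact_mod_cast Nat.pow_log_le_self 2 hDpos.ne'
      linarith
    calc ∑ i ∈ S, (4 : ℝ) ^ (i + 1) * ((univ.filter (fun z => 2 ^ i ≤ od b z Y)).card : ℝ)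
        ≤ ∑ i ∈ S, ((s : ℝ) ^ 2 / 128 * (1 / 2) ^ i + 192 * s * 2 ^ i) := Finset.sum_le_sum h2
      _ = (s : ℝ) ^ 2 / 128 * ∑ i ∈ S, (1 / 2 : ℝ) ^ i + 192 * s * ∑ i ∈ S, (2 : ℝ) ^ i := by
          rw [Finset.sum_add_distrib, ← Finset.mul_sum, ← Finset.mul_sum]
      _ ≤ (s : ℝ) ^ 2 / 128 * 1 + 192 * s * (2 * DD j) :=
          add_le_add (mul_le_mul_of_nonneg_left g1 (by positivity))
            (mul_le_mul_of_nonneg_left g2 (by positivity))
      _ = _ := by ring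
  have hfin : 32 * ∑ z, (od b z Y : ℝ) ^ 2 ≤ (s : ℝ) ^ 2 := by
    have hs0 : (0 : ℝ) ≤ s := Nat.cast_nonneg s
    have e1 : (49152 : ℝ) * DD j ≤ s := by exact_mod_cast h49.trans hs
    have e2 : (5632 : ℝ) * DD j ≤ PP j := by exact_mod_cast h56
    have e3 : 22 * (s : ℝ) / PP j * (s * DD j) ≤ s ^ 2 * (22 / 5632) := by
      rw [div_mul_eq_mul_div, div_le_iff₀ hP']
      have e4 : (0 : ℝ) ≤ (s : ℝ) ^ 2 := by positivity
      nlinarith [mul_le_mul_of_nonneg_left e2 e4]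
    have e5 : (s : ℝ) * DD j ≤ s ^ 2 / 49152 := by
      have := mul_le_mul_of_nonneg_left e1 hs0
      nlinarith
    have e6 : (1 + 22 * (s : ℝ) / PP j) * (s * DD j) =
        s * DD j + 22 * (s : ℝ) / PP j * (s * DD j) := by ring
    have e7 : (0 : ℝ) ≤ (s : ℝ) ^ 2 := by positivity
    nlinarith
  exact_mod_cast hfin

end Pool.Agent.Lib.MP_6383d0_co.Kim.H81
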