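import Pool.Agent.Lib.MP_6383d0_co.Kim.Interfaces

/-!
# LAYER: few pairs of points have columns with a common neighbour (Paper section 3)
-/

namespace Pool.Agent.Lib.MP_6383d0_co.Kim.H81

open Finset Filter Pool.Agent.Lib.MP_6383d0_co.Kim

variable {N P : ℕ} (b : Fin N × Fin N → Fin P)

open Classical in
/-- The number of neighbours of `z` in `Y`. -/
noncomputable def dg (z : Fin N) (Y : Finset (Fin N)) : ℕ := (Y.filter (fun y => (Gr b).Adj y z)).card

theorem dg_le (z : Fin N) (Y : Finset (Fin N)) : dg b z Y ≤ od b z Y + od (tr b) z Y := by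
  classical
  unfold dg od
  rw [← Finset.card_union_add_card_inter]
  refine le_trans (Finset.card_le_card ?_) (Nat.le_add_right _ _)
  intro y hy
  rw [Finset.mem_filter] at hy
  rw [Finset.mem_union, Finset.mem_filter, Finset.mem_filter]
  rcases hy.2.2 with h | h
  · exact Or.inr ⟨hy.1, h⟩
  · exact Or.inl ⟨hy.1, h⟩

theorem sum_dg_sq {Y : Finset (Fin N)} (h1 : 32 * ∑ z, (od b z Y) ^ 2 ≤ Y.card ^ 2)
    (h2 : 32 * ∑ z, (od (tr b) z Y) ^ 2 ≤ Y.card ^ 2) : 8 * ∑ z, (dg b z Y) ^ 2 ≤ Y.card ^ 2 := by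
  have h3 : ∑ z, (dg b z Y) ^ 2 ≤ 2 * ∑ z, (od b z Y) ^ 2 + 2 * ∑ z, (od (tr b) z Y) ^ 2 := by
    rw [Finset.mul_sum, Finset.mul_sum, ← Finset.sum_add_distrib]
    refine Finset.sum_le_sum fun z _ => ?_
    have h4 := dg_le b z Y
    have h5 : (dg b z Y) ^ 2 ≤ (od b z Y + od (tr b) z Y) ^ 2 := Nat.pow_le_pow_left h4 2
    refine h5.trans ?_
    have h6 : (0 : ℤ) ≤ ((od b z Y : ℤ) - (od (tr b) z Y : ℤ)) ^ 2 := sq_nonneg _
    zify
    nlinarith
  omega

open Classical in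
/-- The number of pairs with a common neighbour. -/
noncomputable def Nc (Y Y' : Finset (Fin N)) : ℕ :=
  ((Y ×ˢ Y').filter (fun p => ∃ z, (Gr b).Adj p.1 z ∧ (Gr b).Adj p.2 z)).card

theorem Nc_le (Y Y' : Finset (Fin N)) : Nc b Y Y' ≤ ∑ z, dg b z Y * dg b z Y' := by
  classical
  have h1 : ((Y ×ˢ Y').filter (fun p => ∃ z, (Gr b).Adj p.1 z ∧ (Gr b).Adj p.2 z)) ⊆
      Finset.univ.biUnion (fun z : Fin N => (Y.filter (fun y => (Gr b).Adj y z)) ×ˢ
        (Y'.filter (fun y => (Gr b).Adj y z))) := by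
    intro p hp
    rw [Finset.mem_filter, Finset.mem_product] at hp
    obtain ⟨⟨hp1, hp2⟩, z, hz1, hz2⟩ := hp
    rw [Finset.mem_biUnion]
    refine ⟨z, Finset.mem_univ _, ?_⟩
    rw [Finset.mem_product, Finset.mem_filter, Finset.mem_filter]
    exact ⟨⟨hp1, hz1⟩, hp2, hz2⟩
  unfold Nc
  refine (Finset.card_le_card h1).trans (Finset.card_biUnion_le.trans (le_of_eq ?_))
  refine Finset.sum_congr rfl fun z _ => ?_
  rw [Finset.card_product]
  rfl

theorem Nc_trivial (Y Y' : Finset (Fin N)) : Nc b Y Y' ≤ Y.card * Y'.card := by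
  classical
  unfold Nc
  refine (Finset.card_filter_le _ _).trans (le_of_eq ?_)
  rw [Finset.card_product]

theorem Nc_good {Y Y' : Finset (Fin N)} (h1 : 8 * ∑ z, (dg b z Y) ^ 2 ≤ Y.card ^ 2)
    (h2 : 8 * ∑ z, (dg b z Y') ^ 2 ≤ Y'.card ^ 2) : 8 * Nc b Y Y' ≤ Y.card * Y'.card := by
  have h3 : (8 * ∑ z, dg b z Y * dg b z Y') ^ 2 ≤ (Y.card * Y'.card) ^ 2 := by
    have hcs := Finset.sum_mul_sq_le_sq_mul_sq (R := ℕ) Finset.univ (fun z => dg b z Y)
      (fun z => dg b z Y')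
    calc (8 * ∑ z, dg b z Y * dg b z Y') ^ 2 = 64 * (∑ z, dg b z Y * dg b z Y') ^ 2 := by ring
      _ ≤ 64 * ((∑ z, (dg b z Y) ^ 2) * ∑ z, (dg b z Y') ^ 2) := Nat.mul_le_mul_left _ hcs
      _ = (8 * ∑ z, (dg b z Y) ^ 2) * (8 * ∑ z, (dg b z Y') ^ 2) := by ring
      _ ≤ Y.card ^ 2 * Y'.card ^ 2 := Nat.mul_le_mul h1 h2
      _ = (Y.card * Y'.card) ^ 2 := by ring
  have h4 : 8 * ∑ z, dg b z Y * dg b z Y' ≤ Y.card * Y'.card :=
    (Nat.pow_le_pow_iff_left (by norm_num)).mp h3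
  exact (Nat.mul_le_mul_left 8 (Nc_le b Y Y')).trans h4

/-- The layers. -/
def lay (μ : Fin N → ℕ) (i : ℕ) : Finset (Fin N) := univ.filter (fun y => i < μ y)

theorem layer_sum (μ : Fin N → ℕ) (r : ℕ) (hμ : ∀ y, μ y ≤ r) (y : Fin N) :
    μ y = ∑ i ∈ range r, if y ∈ lay μ i then 1 else 0 := by
  rw [← Finset.card_filter]
  have h1 : (range r).filter (fun i => y ∈ lay μ i) = range (μ y) := by
    ext i
    simp only [lay, Finset.mem_filter, Finset.mem_range, Finset.mem_univ, true_and]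
    constructor
    · exact fun h => h.2
    · exact fun h => ⟨lt_of_lt_of_le h (hμ y), h⟩
  rw [h1, Finset.card_range]

theorem sum_card_lay (μ : Fin N → ℕ) (r : ℕ) (hμ : ∀ y, μ y ≤ r) :
    ∑ i ∈ range r, (lay μ i).card = ∑ y, μ y := by
  have h1 : ∀ i, (lay μ i).card = ∑ y, if y ∈ lay μ i then 1 else 0 := by
    intro i
    rw [← Finset.card_filter]
    congr 1
    ext y
    simp [lay]
  simp only [h1]
  rw [Finset.sum_comm]
  exact Finset.sum_congr rfl fun y _ => (layer_sum μ r hμ y).symm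

theorem pairs_sum (μ : Fin N → ℕ) (r : ℕ) (hμ : ∀ y, μ y ≤ r) (Q : Fin N × Fin N → Prop)
    [DecidablePred Q] :
    ∑ p ∈ univ.filter Q, μ p.1 * μ p.2 = ∑ i ∈ range r, ∑ i' ∈ range r,
      ((lay μ i ×ˢ lay μ i').filter Q).card := by
  have h1 : ∀ i i' : ℕ, ((lay μ i ×ˢ lay μ i').filter Q).card =
      ∑ p ∈ univ.filter Q, (if p.1 ∈ lay μ i then 1 else 0) * (if p.2 ∈ lay μ i' then 1 else 0) := by
    intro i i'
    have h2 : ∀ p : Fin N × Fin N, (if p.1 ∈ lay μ i then 1 else 0) *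
        (if p.2 ∈ lay μ i' then 1 else 0) = if p ∈ lay μ i ×ˢ lay μ i' then (1 : ℕ) else 0 := by
      intro p
      by_cases h3 : p.1 ∈ lay μ i <;> by_cases h4 : p.2 ∈ lay μ i' <;>
        simp [h3, h4, Finset.mem_product]
    simp only [h2]
    rw [← Finset.card_filter]
    congr 1
    ext p
    simp only [Finset.mem_filter, Finset.mem_univ, true_and]
    exact and_comm
  simp only [h1]
  have h5 : ∀ p : Fin N × Fin N, μ p.1 * μ p.2 = ∑ i ∈ range r, ∑ i' ∈ range r,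
      (if p.1 ∈ lay μ i then 1 else 0) * (if p.2 ∈ lay μ i' then 1 else 0) := by
    intro p
    conv_lhs => rw [layer_sum μ r hμ p.1, layer_sum μ r hμ p.2]
    rw [Finset.sum_mul_sum]
  calc ∑ p ∈ univ.filter Q, μ p.1 * μ p.2
      = ∑ p ∈ univ.filter Q, ∑ i ∈ range r, ∑ i' ∈ range r,
        (if p.1 ∈ lay μ i then 1 else 0) * (if p.2 ∈ lay μ i' then 1 else 0) :=
        Finset.sum_congr rfl fun p _ => h5 p
    _ = ∑ i ∈ range r, ∑ p ∈ univ.filter Q, ∑ i' ∈ range r,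
        (if p.1 ∈ lay μ i then 1 else 0) * (if p.2 ∈ lay μ i' then 1 else 0) := Finset.sum_comm
    _ = _ := Finset.sum_congr rfl fun i _ => Finset.sum_comm

/-- The deterministic inequality. -/
theorem layer_ineq (m s r : ℕ) (hs : 8 * r * s ≤ m) (μ : Fin N → ℕ) (hμ : ∀ y, μ y ≤ r)
    (hm : ∑ y, μ y = m)
    (h1 : ∀ Y : Finset (Fin N), s ≤ Y.card → Y.card ≤ m → 32 * ∑ z, (od b z Y) ^ 2 ≤ Y.card ^ 2)
    (h2 : ∀ Y : Finset (Fin N), s ≤ Y.card → Y.card ≤ m →
      32 * ∑ z, (od (tr b) z Y) ^ 2 ≤ Y.card ^ 2) :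
    8 * ∑ i ∈ range r, ∑ i' ∈ range r, Nc b (lay μ i) (lay μ i') ≤ 3 * m ^ 2 := by
  obtain ⟨c, hc⟩ : ∃ c : ℕ → ℕ, c = fun i => (lay μ i).card := ⟨_, rfl⟩
  obtain ⟨w, hw⟩ : ∃ w : ℕ → ℕ, w = fun i => if (lay μ i).card < s then (lay μ i).card else 0 :=
    ⟨_, rfl⟩
  have hcsum : ∑ i ∈ range r, c i = m := by
    rw [hc, ← hm]
    exact sum_card_lay μ r hμ
  have hcm : ∀ i ∈ range r, c i ≤ m := by
    intro i hi
    rw [← hcsum]
    exact Finset.single_le_sum (f := c) (fun _ _ => Nat.zero_le _) hi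
  have hwsum : 8 * ∑ i ∈ range r, w i ≤ m := by
    have h3 : ∑ i ∈ range r, w i ≤ ∑ _i ∈ range r, s := by
      refine Finset.sum_le_sum fun i _ => ?_
      rw [hw]
      dsimp only
      split_ifs with h
      · exact h.le
      · exact Nat.zero_le _
    rw [Finset.sum_const, Finset.card_range, smul_eq_mul] at h3
    calc 8 * ∑ i ∈ range r, w i ≤ 8 * (r * s) := Nat.mul_le_mul_left _ h3
      _ = 8 * r * s := by ring
      _ ≤ m := hs
  have key : ∀ i ∈ range r, ∀ i' ∈ range r, 8 * Nc b (lay μ i) (lay μ i') ≤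
      c i * c i' + 8 * (w i * c i') + 8 * (c i * w i') := by
    intro i hi i' hi'
    have htriv := Nc_trivial b (lay μ i) (lay μ i')
    have hci : c i = (lay μ i).card := by rw [hc]
    have hci' : c i' = (lay μ i').card := by rw [hc]
    rw [← hci, ← hci'] at htriv
    by_cases hb : (lay μ i).card < s
    · have : w i = c i := by rw [hw, hc]; simp [hb]
      rw [this]
      have : 0 ≤ 8 * (c i * w i') := Nat.zero_le _
      nlinarith [Nat.zero_le (c i * c i'), Nat.zero_le (c i * w i')]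
    · by_cases hb' : (lay μ i').card < s
      · have : w i' = c i' := by rw [hw, hc]; simp [hb']
        rw [this]
        nlinarith [Nat.zero_le (c i * c i'), Nat.zero_le (w i * c i')]
      · have g1 : 8 * ∑ z, (dg b z (lay μ i)) ^ 2 ≤ (lay μ i).card ^ 2 :=
          sum_dg_sq b (h1 _ (by omega) (by rw [← hci]; exact hcm i hi))
            (h2 _ (by omega) (by rw [← hci]; exact hcm i hi))
        have g2 : 8 * ∑ z, (dg b z (lay μ i')) ^ 2 ≤ (lay μ i').card ^ 2 :=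
          sum_dg_sq b (h1 _ (by omega) (by rw [← hci']; exact hcm i' hi'))
            (h2 _ (by omega) (by rw [← hci']; exact hcm i' hi'))
        have g3 := Nc_good b g1 g2
        rw [← hci, ← hci'] at g3
        exact g3.trans (by
          rw [add_assoc]
          exact Nat.le_add_right _ _)
  calc 8 * ∑ i ∈ range r, ∑ i' ∈ range r, Nc b (lay μ i) (lay μ i')
      = ∑ i ∈ range r, ∑ i' ∈ range r, 8 * Nc b (lay μ i) (lay μ i') := by
        rw [Finset.mul_sum]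
        exact Finset.sum_congr rfl fun i _ => Finset.mul_sum _ _ _
    _ ≤ ∑ i ∈ range r, ∑ i' ∈ range r, (c i * c i' + 8 * (w i * c i') + 8 * (c i * w i')) :=
        Finset.sum_le_sum fun i hi => Finset.sum_le_sum fun i' hi' => key i hi i' hi'
    _ = (∑ i ∈ range r, c i) * (∑ i ∈ range r, c i) +
        8 * ((∑ i ∈ range r, w i) * (∑ i ∈ range r, c i)) +
        8 * ((∑ i ∈ range r, c i) * (∑ i ∈ range r, w i)) := by
        rw [Finset.sum_mul_sum, Finset.sum_mul_sum, Finset.sum_mul_sum]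
        simp only [Finset.sum_add_distrib, Finset.mul_sum]
    _ ≤ 3 * m ^ 2 := by
        rw [hcsum]
        obtain ⟨W, hW⟩ : ∃ W, W = ∑ i ∈ range r, w i := ⟨_, rfl⟩
        rw [← hW] at hwsum ⊢
        nlinarith

theorem layer (hP : PARA_S) : LAYER_S := by
  refine hP.mono fun j hj => ?_
  obtain ⟨-, -, -, -, -, -, -, -, h48, -, -, -, -⟩ := hj
  intro V _ _ σ hσ b hb hb' I hI J hJ hcn
  classical
  obtain ⟨μ, hμdef⟩ : ∃ μ : Fin (NN j) → ℕ, μ = fun y => (I.filter (fun v => σ v = y)).card :=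
    ⟨_, rfl⟩
  have hμ : ∀ y, μ y ≤ 6 * j ^ 2 := by
    intro y
    rw [hμdef]
    exact (Finset.card_le_card (Finset.filter_subset_filter _ (Finset.subset_univ I))).trans (hσ y)
  have hm : ∑ y, μ y = mm j := by
    rw [hμdef, ← hI]
    exact (Finset.card_eq_sum_card_fiberwise (f := σ) (t := univ) fun _ _ => Finset.mem_univ _).symm
  have hineq := layer_ineq b (mm j) (ss j) (6 * j ^ 2) (by nlinarith) μ hμ hm
    (fun Y h1 h2 => hb Y h1 h2) (fun Y h1 h2 => hb' Y h1 h2)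
  refine le_trans (Nat.mul_le_mul_left 8 ?_) hineq
  have h3 : J.card ≤ ∑ p ∈ univ.filter (fun p : Fin (NN j) × Fin (NN j) =>
      ∃ z, (Gr b).Adj p.1 z ∧ (Gr b).Adj p.2 z), μ p.1 * μ p.2 := by
    have h4 := Finset.card_eq_sum_card_fiberwise (f := fun p : V × V => (σ p.1, σ p.2)) (s := J)
      (t := univ.filter (fun p : Fin (NN j) × Fin (NN j) =>
        ∃ z, (Gr b).Adj p.1 z ∧ (Gr b).Adj p.2 z)) (by
        intro p hp
        rw [Finset.mem_coe, Finset.mem_filter]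
        exact ⟨Finset.mem_univ _, hcn p hp⟩)
    rw [h4]
    refine Finset.sum_le_sum fun q _ => ?_
    have h5 : J.filter (fun p : V × V => (σ p.1, σ p.2) = q) ⊆
        (I.filter (fun v => σ v = q.1)) ×ˢ (I.filter (fun v => σ v = q.2)) := by
      intro p hp
      rw [Finset.mem_filter] at hp
      have h6 := Finset.mem_product.mp (hJ hp.1)
      rw [Finset.mem_product, Finset.mem_filter, Finset.mem_filter]
      exact ⟨⟨h6.1, congrArg Prod.fst hp.2⟩, h6.2, congrArg Prod.snd hp.2⟩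
    refine (Finset.card_le_card h5).trans (le_of_eq ?_)
    rw [Finset.card_product, hμdef]
  refine h3.trans (le_of_eq ?_)
  rw [pairs_sum μ (6 * j ^ 2) hμ]
  rfl

end Pool.Agent.Lib.MP_6383d0_co.Kim.H81
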